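import Mathlib
import Pool.Agent.Q147.ProdApply

/-!
# MP_da2089_gt : products of emu-bounded balleans are emu-bounded
-/

namespace Pool.Agent.Results.MP_da2089_gt.EmuBoundedProducts

open Set Pool.Agent.Q147.ProdCore Pool.Agent.Q147.ProdApply

universe u v

/-- `f` is eventually macro-uniform: for every entourage `E` there is a bounded set `B` such
that the diameters of the sets `f (E[x])`, `x ∉ B`, have a common finite upper bound. -/
def EventuallyMacroUniform {X : Type u} (c : Coarse X) (f : X → ℝ) : Prop :=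
  ∀ E ∈ c.ent, ∃ B, c.Bounded B ∧ ∃ K : ℝ,
    ∀ x, x ∉ B → ∀ a b, (x, a) ∈ E → (x, b) ∈ E → |f a - f b| ≤ K

/-- `X` is emu-bounded: every eventually macro-uniform function is bounded off a bounded set. -/
def EmuBounded {X : Type u} (c : Coarse X) : Prop :=
  ∀ f : X → ℝ, EventuallyMacroUniform c f → ∃ B, c.Bounded B ∧ ∃ K : ℝ, ∀ x, x ∉ B → |f x| ≤ K

/-- The product of two emu-bounded balleans is emu-bounded. -/
theorem result (X : Type u) (Y : Type v) (c : Coarse X) (d : Coarse Y) (hc : EmuBounded c)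
    (hd : EmuBounded d) : EmuBounded (c.prod d) := by
  intro f hf
  obtain ⟨B, hB, C, hC, K, hK⟩ := core_apply c.ent d.ent {B | c.Bounded B} {C | d.Bounded C} f
    ⟨_, c.diag, fun _ => rfl⟩ ⟨_, d.diag, fun _ => rfl⟩
    (fun B hB B' h => bounded_sub c hB h) (fun B hB B' hB' => bounded_union c hB hB')
    (fun B hB B' h => bounded_sub d hB h) (fun B hB B' hB' => bounded_union d hB hB')
    (fun B hB => bounded_base c hB) (fun C hC => bounded_base d hC)
    (by
      intro E hE F hF
      obtain ⟨W, hW, K, h⟩ := hf _ ⟨E, hE, F, hF, subset_rfl⟩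
      obtain ⟨B, C, hB, hC, hWBC⟩ := bounded_prod hW
      refine ⟨B, hB, C, hC, K, ?_⟩
      intro x y hxy a b s t h1 h2 h3 h4
      exact h (x, y) (fun h => hxy (hWBC h)) (a, s) (b, t) ⟨h1, h3⟩ ⟨h2, h4⟩)
    (by
      intro g hg
      apply hc
      intro E hE
      obtain ⟨W, hW, K, h⟩ := hf _ ⟨E, hE, _, d.diag, subset_rfl⟩
      obtain ⟨B, C, hB, hC, hWBC⟩ := bounded_prod hW
      refine ⟨B, hB, max K 0, ?_⟩
      intro x hx a b ha hb
      refine hg a b _ (le_max_right _ _) fun y => ?_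
      exact (h (x, y) (fun h => hx (hWBC h).1) (a, y) (b, y) ⟨ha, rfl⟩ ⟨hb, rfl⟩).trans
        (le_max_left _ _))
    (by
      intro g hg
      apply hd
      intro F hF
      obtain ⟨W, hW, K, h⟩ := hf _ ⟨_, c.diag, F, hF, subset_rfl⟩
      obtain ⟨B, C, hB, hC, hWBC⟩ := bounded_prod hW
      refine ⟨C, hC, max K 0, ?_⟩
      intro y hy a b ha hb
      refine hg a b _ (le_max_right _ _) fun x => ?_
      exact (h (x, y) (fun h => hy (hWBC h).2) (x, a) (x, b) ⟨rfl, ha⟩ ⟨rfl, hb⟩).trans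
        (le_max_left _ _))
  refine ⟨B ×ˢ C, prod_bounded hB hC, K, ?_⟩
  rintro ⟨x, y⟩ hxy
  exact hK x y fun h => hxy h

end Pool.Agent.Results.MP_da2089_gt.EmuBoundedProducts
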